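import Pool.Agent.Helper46.UC.Defs

/-! # MP_57a173_lc, packet DEC: the combinatorics of the decoding -/

noncomputable section

namespace UL.UC.PkDEC

open UL UL.UC

theorem res_inj_at {y y' : ℕ → Bool} {k N : ℕ} (h : res y k = res y' k) (hN : N < k) :
    y N = y' N := by
  have h1 : N < (res y k).length := by simpa using hN
  have h2 : N < (res y' k).length := by simpa using hN
  have e1 := res_get y k N h1
  have e2 := res_get y' k N h2
  rw [← e1, ← e2]
  simp only [h]

open Classical in
/-- If the values differ at `i`, the first difference is at most `i` and the values differ there. -/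
theorem fd_spec {a b : ℕ → Bool} {i : ℕ} (h : a i ≠ b i) : fd a b ≤ i ∧ a (fd a b) ≠ b (fd a b) := by
  have hh : ∃ i, a i ≠ b i := ⟨i, h⟩
  have e : fd a b = Nat.find hh := by
    unfold fd
    rw [dif_pos hh]
  rw [e]
  exact ⟨Nat.find_min' hh h, Nat.find_spec hh⟩

open Classical in
/-- The main claim: the truncated points compute the same real below `m`. -/
theorem claim {lv : ℕ → ℕ} {κ : ℕ → ℕ} {φ : Finset ℕ → ℕ → Bool} {X : ℕ → Bool}
    (hmono : Monotone lv) (hκ : StrictMono κ)
    (hdep : ∀ (T T' : Finset ℕ) n, (∀ j, κ j < n → (j ∈ T ↔ j ∈ T')) → φ T n = φ T' n)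
    (hfd : ∀ j T T', T ⊆ Finset.range j → T' ⊆ Finset.range j → fd (φ T) (φ T') < κ j)
    {m N : ℕ} {T T' : Finset ℕ} (hT : ∀ i, i < m → φ T i = X i) (hT' : ∀ i, i < m → φ T' i = X i)
    (J : ℕ) : ∀ i, i < m →
      φ (T.filter fun j => lv j ≤ N ∨ j < J) i = φ (T'.filter fun j => lv j ≤ N ∨ j < J) i := by
  intro i hi
  by_contra hne
  set a := T.filter fun j => lv j ≤ N ∨ j < J with ha
  set a' := T'.filter fun j => lv j ≤ N ∨ j < J with ha'
  obtain ⟨hd1, hd2⟩ := fd_spec hne
  set d := fd (φ a) (φ a') with hd
  have hdm : d < m := lt_of_le_of_lt hd1 hi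
  have key : φ T d = φ a d ∧ φ T' d = φ a' d := by
    by_cases hP : ∃ j, J ≤ j ∧ N < lv j ∧ (j ∈ T ∨ j ∈ T')
    · have hJ0 := Nat.find_spec hP
      have hmin : ∀ j, j < Nat.find hP → ¬ (J ≤ j ∧ N < lv j ∧ (j ∈ T ∨ j ∈ T')) :=
        fun j hj => Nat.find_min hP hj
      set J0 := Nat.find hP with hJ0def
      have hlow : ∀ j, (lv j ≤ N ∨ j < J) → j < J0 := by
        intro j hj
        rcases hj with hj | hj
        · by_contra hcon
          have := hmono (not_lt.1 hcon)
          omega
        · omega
      have hsub : a ⊆ Finset.range J0 := by
        intro j hj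
        rw [ha, Finset.mem_filter] at hj
        exact Finset.mem_range.2 (hlow j hj.2)
      have hsub' : a' ⊆ Finset.range J0 := by
        intro j hj
        rw [ha', Finset.mem_filter] at hj
        exact Finset.mem_range.2 (hlow j hj.2)
      have hlt : d < κ J0 := hfd J0 a a' hsub hsub'
      have hjlt : ∀ j, κ j < d → j < J0 := by
        intro j hj
        exact hκ.lt_iff_lt.1 (lt_trans hj hlt)
      constructor
      · apply hdep
        intro j hj
        rw [ha, Finset.mem_filter]
        constructor
        · intro hjT
          refine ⟨hjT, ?_⟩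
          by_contra hcon
          push Not at hcon
          exact hmin j (hjlt j hj) ⟨hcon.2, hcon.1, Or.inl hjT⟩
        · exact fun h => h.1
      · apply hdep
        intro j hj
        rw [ha', Finset.mem_filter]
        constructor
        · intro hjT
          refine ⟨hjT, ?_⟩
          by_contra hcon
          push Not at hcon
          exact hmin j (hjlt j hj) ⟨hcon.2, hcon.1, Or.inr hjT⟩
        · exact fun h => h.1
    · push Not at hP
      have e1 : a = T := by
        rw [ha, Finset.filter_eq_self]
        intro j hj
        by_contra hcon
        push Not at hcon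
        exact (hP j hcon.2 hcon.1).1 hj
      have e2 : a' = T' := by
        rw [ha', Finset.filter_eq_self]
        intro j hj
        by_contra hcon
        push Not at hcon
        exact (hP j hcon.2 hcon.1).2 hj
      rw [e1, e2]
      exact ⟨rfl, rfl⟩
  apply hd2
  rw [← key.1, ← key.2, hT d hdm, hT' d hdm]

open Classical in
theorem dec : P_DEC := by
  intro lv lb κ φ y X Z hmono hfin hκ hdep hfd hlb hX hne n
  have hle : ∀ j, j ≤ κ j := fun j => hκ.id_le j
  -- the set of the used indices with position below m
  have hTm : ∀ m i, i < m → φ ((Finset.range m).filter (· ∈ Z)) i = X i := by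
    intro m i hi
    symm
    apply hX
    intro j hj
    have := hle j
    simp only [Finset.mem_filter, Finset.mem_range, and_iff_right_iff_imp]
    intro _
    omega
  constructor
  · intro hy m _
    refine ⟨(Finset.range m).filter (· ∈ Z), y, hy, ?_, hTm m⟩
    intro j hj
    exact hlb j (Finset.mem_filter.1 hj).2
  · intro H
    by_contra hyn
    -- the places of difference
    choose dd hdd using hne
    set S := (hfin n).toFinset with hS
    set m := n + 1 + S.powerset.sup (fun T0 => dd T0 + 1) with hm
    obtain ⟨T', y', hy', hT'lb, hT'⟩ := H m (by omega)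
    have hex : ∃ N, y N ≠ y' N := ⟨n, by rw [hy']; exact hyn⟩
    set N := Nat.find hex with hN
    have hNspec : y N ≠ y' N := Nat.find_spec hex
    have hNn : N ≤ n := Nat.find_min' hex (by rw [hy']; exact hyn)
    set T := (Finset.range m).filter (· ∈ Z) with hTdef
    have hT : ∀ i, i < m → φ T i = X i := hTm m
    have hdisj : ∀ j, j ∈ T → j ∈ T' → ¬ N < lv j := by
      intro j hj hj' hlt
      have e1 := hlb j (Finset.mem_filter.1 hj).2
      have e2 := hT'lb j hj'
      exact hNspec (res_inj_at (e1.symm.trans e2) hlt)
    have hcl := claim hmono hκ hdep hfd (N := N) hT hT'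
    have hstep : ∀ J i, i < m →
        φ (T.filter fun j => lv j ≤ N ∨ j < J) i = φ (T.filter fun j => lv j ≤ N ∨ j < 0) i := by
      intro J
      induction J with
      | zero => intro i _; rfl
      | succ J ih =>
        intro i hi
        by_cases hJ : J ∈ T ∧ N < lv J
        · have hJ' : ¬ (J ∈ T') := fun h => hdisj J hJ.1 h hJ.2
          have e : (T'.filter fun j => lv j ≤ N ∨ j < J + 1) =
              (T'.filter fun j => lv j ≤ N ∨ j < J) := by
            apply Finset.filter_congr
            intro j hj
            have : j ≠ J := fun h => hJ' (h ▸ hj)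
            constructor
            · rintro (h | h)
              · exact Or.inl h
              · right; omega
            · rintro (h | h)
              · exact Or.inl h
              · right; omega
          rw [hcl (J + 1) i hi, e, ← hcl J i hi]
          exact ih i hi
        · have e : (T.filter fun j => lv j ≤ N ∨ j < J + 1) =
              (T.filter fun j => lv j ≤ N ∨ j < J) := by
            apply Finset.filter_congr
            intro j hj
            constructor
            · rintro (h | h)
              · exact Or.inl h
              · by_cases hjJ : j = J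
                · subst hjJ
                  left
                  by_contra hcon
                  exact hJ ⟨hj, not_le.1 hcon⟩
                · right; omega
            · rintro (h | h)
              · exact Or.inl h
              · right; omega
          rw [e]
          exact ih i hi
    set T0 := T.filter fun j => lv j ≤ N ∨ j < 0 with hT0
    have hT0S : T0 ∈ S.powerset := by
      rw [Finset.mem_powerset]
      intro j hj
      rw [hT0, Finset.mem_filter] at hj
      rw [hS, Set.Finite.mem_toFinset]
      rcases hj.2 with h | h
      · exact le_trans h hNn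
      · omega
    have hdm : dd T0 < m := by
      have : dd T0 + 1 ≤ S.powerset.sup (fun T0 => dd T0 + 1) :=
        Finset.le_sup (f := fun T0 => dd T0 + 1) hT0S
      omega
    have eT : (T.filter fun j => lv j ≤ N ∨ j < m) = T := by
      rw [Finset.filter_eq_self]
      intro j hj
      right
      rw [hTdef, Finset.mem_filter, Finset.mem_range] at hj
      exact hj.1
    have h1 := hstep m (dd T0) hdm
    rw [eT, hT _ hdm] at h1
    exact hdd T0 h1.symm

end UL.UC.PkDEC
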